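import Mathlib

namespace Pool.Agent.Results.MP_d61c7e_al.Identify

open Polynomial Finset

section gen
variable {A B : Type*} [CommRing A] [CommRing B]

/-- iterated `a^2 b^2 + a + b`. -/
def U : List A → A
  | [] => 0
  | a :: l => a ^ 2 * (U l) ^ 2 + a + U l

def T {n : ℕ} (x : Fin n → A) (i : ℕ) : A :=
  (U (List.ofFn x)) ^ 2 + (if h : i / 2 < n then x ⟨i / 2, h⟩ else 0) + ((i % 2 : ℕ) : A)

def P {n : ℕ} (x : Fin n → A) : A :=
  ∑ i ∈ range (2 * n + 2), T x i ^ ((2 * 4 ^ n + 2) ^ (i + 1))

lemma map_U (h : A →+* B) (l : List A) : h (U l) = U (l.map h) := by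
  induction l with
  | nil => simp [U]
  | cons a l ih => simp [U, ih]

lemma map_P (h : A →+* B) {n : ℕ} (x : Fin n → A) : h (P x) = P (fun i => h (x i)) := by
  simp only [P, map_sum, map_pow, T, map_add, map_U, List.map_ofFn, map_natCast]
  refine sum_congr rfl fun i _ => ?_
  congr 3
  split_ifs <;> simp
end gen

variable {L : Type*} [Field L]

lemma W_lo (a b : L[X]) : max a.natDegree b.natDegree ≤ (a ^ 2 * b ^ 2 + a + b).natDegree := by
  by_cases ha : a = 0
  · simp [ha]
  by_cases hb : b = 0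
  · simp [hb]
  rcases Nat.eq_zero_or_pos (max a.natDegree b.natDegree) with h0 | h0
  · omega
  have h1 : (a ^ 2 * b ^ 2).natDegree = 2 * a.natDegree + 2 * b.natDegree := by
    rw [natDegree_mul (pow_ne_zero _ ha) (pow_ne_zero _ hb), natDegree_pow, natDegree_pow]
  have h2 := natDegree_add_le a b
  rw [add_assoc, natDegree_add_eq_left_of_natDegree_lt (by omega)]
  omega

lemma U_lo (l : List L[X]) : ∀ a ∈ l, a.natDegree ≤ (U l).natDegree := by
  induction l with
  | nil => simp
  | cons b l ih =>
    intro a ha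
    have := W_lo b (U l)
    rcases List.mem_cons.1 ha with rfl | ha
    · simp only [U]; omega
    · have := ih a ha
      simp only [U]; omega

lemma U_hi (d : ℕ) (l : List L[X]) (h : ∀ a ∈ l, a.natDegree ≤ d) :
    (U l).natDegree ≤ 4 ^ l.length * d := by
  induction l with
  | nil => simp [U]
  | cons b l ih =>
    have h1 := ih fun a ha => h a (List.mem_cons_of_mem _ ha)
    have h2 := h b List.mem_cons_self
    have h3 : d ≤ 4 ^ l.length * d := Nat.le_mul_of_pos_left _ (by positivity)
    have h4 : (b ^ 2 * (U l) ^ 2).natDegree ≤ 2 * b.natDegree + 2 * (U l).natDegree := by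
      refine natDegree_mul_le.trans ?_
      rw [natDegree_pow, natDegree_pow]
    have h5 := natDegree_add_le (b ^ 2 * (U l) ^ 2) b
    have h6 := natDegree_add_le (b ^ 2 * (U l) ^ 2 + b) (U l)
    simp only [U, List.length_cons, pow_succ 4]
    have : 4 ^ l.length * 4 * d = 4 * (4 ^ l.length * d) := by ring
    omega

lemma T_deg {n : ℕ} (x : Fin n → L[X]) (d : ℕ) (h : ∀ j, (x j).natDegree ≤ d) (i : ℕ) :
    (T x i).natDegree ≤ 2 * 4 ^ n * d ∧ ∀ j, (x j).natDegree ≤ (T x i).natDegree := by
  have hU := U_hi d (List.ofFn x) (by simpa [List.mem_ofFn] using h)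
  have hL : ∀ j, (x j).natDegree ≤ (U (List.ofFn x)).natDegree := fun j =>
    U_lo _ _ (by simp [List.mem_ofFn])
  rw [List.length_ofFn] at hU
  set u := U (List.ofFn x)
  set y : L[X] := (if h : i / 2 < n then x ⟨i / 2, h⟩ else 0) + ((i % 2 : ℕ) : L[X]) with hy
  have hT : T x i = u ^ 2 + y := by simp only [T, hy, add_assoc]; rfl
  have h1 : y.natDegree ≤ u.natDegree := by
    refine (natDegree_add_le _ _).trans (max_le ?_ (by simp))
    split_ifs
    · exact hL _
    · simp
  have h2 : (u ^ 2).natDegree = 2 * u.natDegree := natDegree_pow _ _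
  have h3 := natDegree_add_le (u ^ 2) y
  rw [hT]
  refine ⟨by rw [mul_assoc]; omega, fun j => ?_⟩
  have := hL j
  rcases Nat.eq_zero_or_pos u.natDegree with h0 | h0
  · omega
  rw [natDegree_add_eq_left_of_natDegree_lt (by omega)]
  omega

variable [CharZero L]

lemma key (a b : L[X]) (k : ℕ)
    (h : (a ^ k - b ^ k).natDegree < (k - 1) * max a.natDegree b.natDegree) :
    a ^ k = b ^ k ∧ ∃ z : L, a = C z * b := by
  obtain ⟨m, rfl⟩ : ∃ m, k = m + 1 := ⟨k - 1, by
    rcases k with _ | k
    · simp at h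
    · simp⟩
  simp only [Nat.add_sub_cancel] at h
  have ea : (a ^ (m + 1)).natDegree = m * a.natDegree + a.natDegree := by
    rw [natDegree_pow]; ring
  have eb : (b ^ (m + 1)).natDegree = m * b.natDegree + b.natDegree := by
    rw [natDegree_pow]; ring
  rcases lt_trichotomy a.natDegree b.natDegree with hl | he | hl
  · exfalso
    have := Nat.mul_le_mul_left m hl.le
    rw [natDegree_sub_eq_right_of_natDegree_lt (by omega), max_eq_right hl.le] at h
    omega
  swap
  · exfalso
    have := Nat.mul_le_mul_left m hl.le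
    rw [natDegree_sub_eq_left_of_natDegree_lt (by omega), max_eq_left hl.le] at h
    omega
  rw [← he, max_self] at h
  have hd : 0 < a.natDegree := by
    rcases Nat.eq_zero_or_pos a.natDegree with h0 | h0
    · simp [h0] at h
    · exact h0
  have ha : a ≠ 0 := by rintro rfl; simp at hd
  have hb : b ≠ 0 := by rintro rfl; simp at he; omega
  have hα := leadingCoeff_ne_zero.2 ha
  have hβ := leadingCoeff_ne_zero.2 hb
  have hc : a.leadingCoeff ^ (m + 1) = b.leadingCoeff ^ (m + 1) := by
    have h0 : (a ^ (m + 1) - b ^ (m + 1)).coeff ((m + 1) * a.natDegree) = 0 :=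
      coeff_eq_zero_of_natDegree_lt (by rw [add_mul]; omega)
    rw [coeff_sub, coeff_pow_mul_natDegree, he, coeff_pow_mul_natDegree] at h0
    exact sub_eq_zero.1 h0
  set z := a.leadingCoeff / b.leadingCoeff with hz
  have hz0 : z ≠ 0 := div_ne_zero hα hβ
  have hzk : z ^ (m + 1) = 1 := by rw [hz, div_pow, hc, div_self (pow_ne_zero _ hβ)]
  have hc2 : (C z * b) ^ (m + 1) = b ^ (m + 1) := by rw [mul_pow, ← C_pow, hzk]; simp
  have hdc : (C z * b).natDegree = a.natDegree := by rw [natDegree_C_mul hz0, he]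
  have hlc : (C z * b).leadingCoeff = a.leadingCoeff := by
    rw [leadingCoeff_mul, leadingCoeff_C, hz, div_mul_cancel₀ _ hβ]
  have hc0 : C z * b ≠ 0 := mul_ne_zero (by simpa using hz0) hb
  set c := C z * b
  have hg := (Commute.all a c).geom_sum₂_mul (m + 1)
  set S := ∑ i ∈ range (m + 1), a ^ i * c ^ (m + 1 - 1 - i) with hS
  have hco : S.coeff (m * a.natDegree) ≠ 0 := by
    rw [hS, finset_sum_coeff, sum_congr rfl (g := fun _ => a.leadingCoeff ^ m)]
    · simp only [sum_const, card_range, nsmul_eq_mul]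
      exact mul_ne_zero (by exact_mod_cast Nat.succ_ne_zero m) (pow_ne_zero _ hα)
    · intro i hi
      have hi' : i ≤ m := Nat.lt_succ_iff.1 (mem_range.1 hi)
      obtain ⟨j, rfl⟩ := Nat.exists_eq_add_of_le hi'
      have e1 : i + j + 1 - 1 - i = j := by omega
      have e2 : (a ^ i * c ^ j).natDegree = (i + j) * a.natDegree := by
        rw [natDegree_mul (pow_ne_zero _ ha) (pow_ne_zero _ hc0), natDegree_pow, natDegree_pow, hdc]
        ring
      rw [e1, ← e2, coeff_natDegree, leadingCoeff_mul, leadingCoeff_pow, leadingCoeff_pow, hlc,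
        pow_add]
  have hac : a = c := by
    by_contra hne
    have hS0 : S ≠ 0 := by rintro h0; simp [h0] at hco
    have h1 := le_natDegree_of_ne_zero hco
    rw [← hc2, ← hg, natDegree_mul hS0 (sub_ne_zero.2 hne)] at h
    omega
  exact ⟨by rw [hac, hc2], z, hac⟩

lemma down (a b : ℕ → L[X]) (c d : ℕ) (hd : 0 < d) (ha : ∀ i, (a i).natDegree ≤ c * d)
    (hb : ∀ i, (b i).natDegree ≤ c * d) (hm : ∀ i, d ≤ max (a i).natDegree (b i).natDegree)
    (m : ℕ) (h : ∑ i ∈ range m, a i ^ ((c + 2) ^ (i + 1)) = ∑ i ∈ range m, b i ^ ((c + 2) ^ (i + 1))) :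
    ∀ i < m, ∃ z : L, a i = C z * b i := by
  induction m with
  | zero => simp
  | succ m ih =>
    rw [sum_range_succ, sum_range_succ] at h
    have hs : ∀ f : ℕ → L[X], (∀ i, (f i).natDegree ≤ c * d) →
        (∑ i ∈ range m, f i ^ ((c + 2) ^ (i + 1))).natDegree ≤ (c + 2) ^ m * (c * d) := by
      intro f hf
      refine natDegree_sum_le_of_forall_le _ _ fun i hi => ?_
      rw [natDegree_pow]
      exact Nat.mul_le_mul (Nat.pow_le_pow_right (by omega) (mem_range.1 hi)) (hf i)
    have e : a m ^ ((c + 2) ^ (m + 1)) - b m ^ ((c + 2) ^ (m + 1)) =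
        ∑ i ∈ range m, b i ^ ((c + 2) ^ (i + 1)) - ∑ i ∈ range m, a i ^ ((c + 2) ^ (i + 1)) := by
      linear_combination h
    have hk := key (a m) (b m) ((c + 2) ^ (m + 1)) (by
      rw [e]
      refine (natDegree_sub_le _ _).trans_lt ((max_le (hs b hb) (hs a ha)).trans_lt ?_)
      refine lt_of_lt_of_le ?_ (Nat.mul_le_mul_left _ (hm m))
      rw [← mul_assoc]
      refine Nat.mul_lt_mul_of_pos_right ?_ hd
      have : 0 < (c + 2) ^ m := by positivity
      rw [pow_succ, mul_add]
      omega)
    intro i hi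
    rcases Nat.lt_succ_iff_lt_or_eq.1 hi with hi | rfl
    · exact ih (by rw [hk.1] at h; exact add_right_cancel h) i hi
    · exact hk.2

lemma one_var {n : ℕ} (f g : Fin n → L[X]) (j0 : Fin n) (h0 : 0 < (f j0).natDegree)
    (h : P f = P g) : f = g := by
  obtain ⟨d, hd1, hd2, hd3⟩ : ∃ d, (∀ j, (f j).natDegree ≤ d) ∧ (∀ j, (g j).natDegree ≤ d) ∧
      ∃ j, d = (f j).natDegree ∨ d = (g j).natDegree := by
    obtain ⟨j, -, hj⟩ := exists_max_image (univ : Finset (Fin n))
      (fun j => max (f j).natDegree (g j).natDegree) ⟨j0, mem_univ _⟩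
    refine ⟨max (f j).natDegree (g j).natDegree, fun i => ?_, fun i => ?_, j, ?_⟩
    · have := hj i (mem_univ _); omega
    · have := hj i (mem_univ _); omega
    · omega
  have hd : 0 < d := h0.trans_le (hd1 j0)
  have hm : ∀ i, d ≤ max (T f i).natDegree (T g i).natDegree := by
    intro i
    obtain ⟨j, hj⟩ := hd3
    have := (T_deg f d hd1 i).2 j
    have := (T_deg g d hd2 i).2 j
    omega
  have H := down (T f) (T g) (2 * 4 ^ n) d hd (fun i => (T_deg f d hd1 i).1)
    (fun i => (T_deg g d hd2 i).1) hm _ h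
  have E : ∀ i ≤ n, T f (2 * i) = T g (2 * i) := by
    intro i hi
    obtain ⟨z, hz⟩ := H (2 * i) (by omega)
    obtain ⟨w, hw⟩ := H (2 * i + 1) (by omega)
    have s : ∀ x : Fin n → L[X], T x (2 * i + 1) = T x (2 * i) + 1 := by
      intro x
      have e1 : (2 * i + 1) / 2 = 2 * i / 2 := by omega
      have e2 : (2 * i + 1) % 2 = 1 := by omega
      have e3 : (2 * i) % 2 = 0 := by omega
      simp only [T, e1, e2, e3]
      simp
    rw [s, s, hz] at hw
    have e : C (z - w) * T g (2 * i) = C (w - 1) := by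
      simp only [map_sub, map_one]; linear_combination hw
    have hB : 0 < (T g (2 * i)).natDegree := by
      have := hm (2 * i)
      have h2 : (T f (2 * i)).natDegree ≤ (T g (2 * i)).natDegree := by
        rw [hz]; exact natDegree_C_mul_le _ _
      omega
    have hzw : z - w = 0 := by
      by_contra hne
      have := congrArg natDegree e
      rw [natDegree_C_mul hne, natDegree_C] at this
      omega
    have hw1 : w - 1 = 0 := by
      rw [hzw] at e
      simpa using (C_eq_zero.1 (by simpa using e.symm) : w - 1 = 0)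
    have : z = 1 := by linear_combination hzw + hw1
    rw [hz, this]; simp
  funext j
  have e1 := E n le_rfl
  have e2 := E j j.2.le
  have e3 : ∀ i, 2 * i / 2 = i := fun i => by omega
  simp only [T, e3, lt_irrefl, dite_false, j.2, dite_true] at e1 e2
  simp only [Fin.eta] at e2
  have e4 : ∀ i, 2 * i % 2 = 0 := fun i => by omega
  simp only [e4] at e1 e2
  linear_combination e2 - e1

/-- For every `n` and every field `K` of characteristic zero there is a polynomial `p` whose image
determines every non-degenerate endomorphism of `K[x_1, …, x_n]`. -/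
theorem result (n : ℕ) (K : Type*) [Field K] [CharZero K] :
    ∃ p : MvPolynomial (Fin n) K,
      ∀ φ ψ : MvPolynomial (Fin n) K →ₐ[K] MvPolynomial (Fin n) K,
        (∃ q, ∀ c : K, φ q ≠ MvPolynomial.C c) → (∃ q, ∀ c : K, ψ q ≠ MvPolynomial.C c) →
        φ p = ψ p → φ = ψ := by
  refine ⟨P MvPolynomial.X, fun φ ψ ⟨q, hq⟩ _ h => ?_⟩
  let R := MvPolynomial (Fin n) K
  let F := FractionRing R
  let ι : R →+* F := algebraMap R F
  have hι : Function.Injective ι := IsFractionRing.injective R F
  haveI : CharZero F := charZero_of_injective_ringHom (f := ι.comp MvPolynomial.C)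
    (ι.comp MvPolynomial.C).injective
  let θ : R →+* F[X] := MvPolynomial.eval₂Hom (C.comp (ι.comp MvPolynomial.C))
    (fun i => C (ι (MvPolynomial.X i)) * X)
  have h1 : (evalRingHom 1).comp θ = ι := by
    apply MvPolynomial.ringHom_ext <;> intro i <;> simp [θ]
  have h0 : (evalRingHom 0).comp θ = ι.comp (MvPolynomial.C.comp MvPolynomial.constantCoeff) := by
    apply MvPolynomial.ringHom_ext <;> intro i <;> simp [θ]
  obtain ⟨j, hj⟩ : ∃ j, ∀ c : K, φ (MvPolynomial.X j) ≠ MvPolynomial.C c := by
    by_contra hn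
    push Not at hn
    suffices ∀ q, ∃ c : K, φ q = MvPolynomial.C c by
      obtain ⟨c, hc⟩ := this q
      exact hq c hc
    intro q
    induction q using MvPolynomial.induction_on with
    | C a => exact ⟨a, by simpa using φ.commutes a⟩
    | add p q hp hq =>
      obtain ⟨a, ha⟩ := hp
      obtain ⟨b, hb⟩ := hq
      exact ⟨a + b, by simp [ha, hb]⟩
    | mul_X p i hp =>
      obtain ⟨a, ha⟩ := hp
      obtain ⟨b, hb⟩ := hn i
      exact ⟨a * b, by simp [ha, hb]⟩
  have hP : P (fun i => θ (φ (MvPolynomial.X i))) = P (fun i => θ (ψ (MvPolynomial.X i))) := by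
    have a1 := map_P (θ.comp φ.toRingHom) (MvPolynomial.X : Fin n → R)
    have a2 := map_P (θ.comp ψ.toRingHom) (MvPolynomial.X : Fin n → R)
    refine a1.symm.trans (Eq.trans ?_ a2)
    exact congrArg θ h
  have hpos : 0 < (θ (φ (MvPolynomial.X j))).natDegree := by
    by_contra hn
    have hz := eq_C_of_natDegree_eq_zero (Nat.eq_zero_of_not_pos hn)
    have a1 := RingHom.congr_fun h1 (φ (MvPolynomial.X j))
    have a0 := RingHom.congr_fun h0 (φ (MvPolynomial.X j))
    simp only [RingHom.comp_apply, coe_evalRingHom] at a1 a0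
    rw [hz, eval_C] at a1 a0
    exact hj _ (hι (a1.symm.trans a0))
  have hfg := one_var _ _ j hpos hP
  refine MvPolynomial.algHom_ext fun i => hι ?_
  rw [← h1]
  exact congrArg (evalRingHom 1) (congrFun hfg i)

end Pool.Agent.Results.MP_d61c7e_al.Identify
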